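import Pool.Agent.Lib.MP_17d4d1_pr.S.Iface

set_option autoImplicit false

/-!
# Independent bits with prescribed disjunctions (module BITS)
-/

namespace Pool.Agent.Lib.MP_17d4d1_pr.S.H74

open Finset Pool.Agent.Lib.MP_17d4d1_pr

theorem bits_aux (R : Finset ℝ) : (∀ t ∈ R, 0 < t) → (∀ t ∈ R, t < 1) →
    ∃ r : ℝ → ℝ, (∀ t, 0 ≤ r t) ∧ (∀ t, r t ≤ 1) ∧
      ∀ t ∈ R, ∏ s ∈ R.filter (· ≤ t), (1 - r s) = 1 - t := by
  classical
  induction R using Finset.induction_on_max with
  | empty => exact fun _ _ => ⟨fun _ => 0, fun _ => le_refl _, fun _ => zero_le_one, by simp⟩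
  | insert a R hlt ih =>
    intro hpos hone
    obtain ⟨r, hr0, hr1, hr⟩ := ih (fun t ht => hpos t (mem_insert_of_mem ht))
      (fun t ht => hone t (mem_insert_of_mem ht))
    have ha0 : 0 < a := hpos a (mem_insert_self a R)
    have ha1 : a < 1 := hone a (mem_insert_self a R)
    have haR : a ∉ R := fun h => lt_irrefl _ (hlt a h)
    obtain ⟨P, hP⟩ : ∃ P, P = ∏ s ∈ R, (1 - r s) := ⟨_, rfl⟩
    have hPa : 1 - a ≤ P := by
      rcases R.eq_empty_or_nonempty with h | h
      · subst h
        simp at hP
        linarith
      · have hm := R.max'_mem h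
        have hf : R.filter (· ≤ R.max' h) = R :=
          Finset.filter_true_of_mem (fun x hx => R.le_max' x hx)
        have h1 := hr _ hm
        rw [hf] at h1
        rw [hP, h1]
        have := hlt _ hm
        linarith
    have hP0 : 0 < P := by linarith
    refine ⟨Function.update r a (1 - (1 - a) / P), ?_, ?_, ?_⟩
    · intro t
      by_cases h : t = a
      · subst h
        simp only [Function.update_self]
        have : (1 - t) / P ≤ 1 := (div_le_one hP0).2 hPa
        linarith
      · rw [Function.update_of_ne h]
        exact hr0 t
    · intro t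
      by_cases h : t = a
      · subst h
        simp only [Function.update_self]
        have : 0 ≤ (1 - t) / P := div_nonneg (by linarith) hP0.le
        linarith
      · rw [Function.update_of_ne h]
        exact hr1 t
    · intro t ht
      have hcongr : ∀ S : Finset ℝ, S ⊆ R →
          ∏ s ∈ S, (1 - Function.update r a (1 - (1 - a) / P) s) = ∏ s ∈ S, (1 - r s) := by
        intro S hS
        refine Finset.prod_congr rfl (fun s hs => ?_)
        rw [Function.update_of_ne]
        rintro rfl
        exact haR (hS hs)
      rcases Finset.mem_insert.1 ht with rfl | htR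
      · have hf : (insert t R).filter (· ≤ t) = insert t R := by
          refine Finset.filter_true_of_mem (fun x hx => ?_)
          rcases Finset.mem_insert.1 hx with rfl | hx
          · exact le_refl _
          · exact (hlt x hx).le
        rw [hf, Finset.prod_insert haR, hcongr R (Finset.Subset.refl R), ← hP,
          Function.update_self]
        field_simp
        ring
      · have hf : (insert a R).filter (· ≤ t) = R.filter (· ≤ t) := by
          rw [Finset.filter_insert, if_neg (not_le.2 (hlt t htR))]
        rw [hf, hcongr _ (Finset.filter_subset _ _)]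
        exact hr t htR

theorem bits : BITS_S := fun R h0 h1 => bits_aux R h0 h1

end Pool.Agent.Lib.MP_17d4d1_pr.S.H74
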